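import Pool.Agent.W820.BM.Stm0

/-! BM-TC: three circles theorem for a holomorphic map with as many components as variables. -/

set_option autoImplicit false

open Topology Filter Metric Set

namespace Pool.Agent.W440.BM

open _root_.Pool.Agent.W820.BM

theorem fact2 {f : ℂ → ℂ} (hf : Differentiable ℂ f) (h0 : deriv f 0 = 0) :
    ∃ k : ℂ → ℂ, Differentiable ℂ k ∧ ∀ t, f t = f 0 + t ^ 2 * k t := by
  have hd : ∀ g : ℂ → ℂ, Differentiable ℂ g → Differentiable ℂ (dslope g 0) := by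
    intro g hg
    have := (Complex.differentiableOn_dslope (f := g) (c := 0) (s := univ) univ_mem).2
      hg.differentiableOn
    exact differentiableOn_univ.1 this
  refine ⟨dslope (dslope f 0) 0, hd _ (hd _ hf), fun t => ?_⟩
  have h1 := sub_smul_dslope f 0 t
  have h2 := sub_smul_dslope (dslope f 0) 0 t
  rw [dslope_same, h0, sub_zero, sub_zero, smul_eq_mul] at h2
  rw [sub_zero, smul_eq_mul, ← h2] at h1
  rw [pow_two, mul_assoc, h1]
  ring

theorem nsq_nonneg {n : ℕ} (v : Fin n → ℂ) : 0 ≤ nsq v := by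
  unfold nsq
  positivity

theorem nsq_pos {n : ℕ} {v : Fin n → ℂ} (hv : v ≠ 0) : 0 < nsq v := by
  rcases (nsq_nonneg v).lt_or_eq with h | h
  · exact h
  · exfalso
    apply hv
    unfold nsq at h
    rw [eq_comm, Finset.sum_eq_zero_iff_of_nonneg (fun i _ => by positivity)] at h
    funext i
    have := h i (Finset.mem_univ _)
    simpa using this

theorem nsq_cont {n : ℕ} : Continuous (nsq : (Fin n → ℂ) → ℝ) := by
  unfold nsq
  fun_prop

theorem norm_add_sq' (a b : ℂ) :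
    ‖a + b‖ ^ 2 = ‖a‖ ^ 2 + 2 * ((starRingEnd ℂ) a * b).re + ‖b‖ ^ 2 := by
  rw [Complex.sq_norm, Complex.sq_norm, Complex.sq_norm, Complex.normSq_add]
  have : (a * (starRingEnd ℂ) b).re = ((starRingEnd ℂ) a * b).re := by
    simp only [Complex.mul_re, Complex.conj_re, Complex.conj_im]
    ring
  rw [this]
  ring

theorem nsq_add {n : ℕ} (u v : Fin n → ℂ) :
    nsq (u + v) = nsq u + 2 * (∑ i, (starRingEnd ℂ) (u i) * v i).re + nsq v := by
  unfold nsq
  rw [Complex.re_sum, Finset.mul_sum, ← Finset.sum_add_distrib, ← Finset.sum_add_distrib]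
  apply Finset.sum_congr rfl
  intro i _
  rw [Pi.add_apply, norm_add_sq']

theorem nsq_smul {n : ℕ} (c : ℂ) (v : Fin n → ℂ) : nsq (c • v) = ‖c‖ ^ 2 * nsq v := by
  unfold nsq
  rw [Finset.mul_sum]
  apply Finset.sum_congr rfl
  intro i _
  rw [Pi.smul_apply, smul_eq_mul, norm_mul, mul_pow]

theorem exists_dir {n : ℕ} (A : (Fin n → ℂ) →L[ℂ] (Fin n → ℂ)) {b : Fin n → ℂ} (hb : b ≠ 0) :
    ∃ (X : Fin n → ℂ) (μ : ℂ), X ≠ 0 ∧ A X = μ • b := by
  by_cases hinj : Function.Injective A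
  · have hsurj : Function.Surjective (A : (Fin n → ℂ) →ₗ[ℂ] (Fin n → ℂ)) :=
      LinearMap.injective_iff_surjective.1 hinj
    obtain ⟨X, hX⟩ := hsurj b
    refine ⟨X, 1, ?_, ?_⟩
    · intro h
      apply hb
      rw [← hX, h, map_zero]
    · rw [one_smul]
      exact hX
  · rw [injective_iff_map_eq_zero] at hinj
    push Not at hinj
    obtain ⟨X, hX, hX0⟩ := hinj
    exact ⟨X, 0, hX0, by rw [hX, zero_smul]⟩

theorem local_nomax {n : ℕ} {Φ : (Fin n → ℂ) → (Fin n → ℂ)} {h : (Fin n → ℂ) → ℂ}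
    {U : Set (Fin n → ℂ)} (hU : IsOpen U) (hΦ : Differentiable ℂ Φ) (hh : DifferentiableOn ℂ h U)
    {τ κ : ℝ} (hτ : 0 < τ) (hκ : 0 < κ) {v1 : Fin n → ℂ} (hv1 : v1 ∈ U)
    (hS : 0 < nsq (Φ v1)) :
    ∃ v ∈ U, (h v1).re + τ * nsq v1 - κ / 2 * Real.log (nsq (Φ v1)) <
      (h v).re + τ * nsq v - κ / 2 * Real.log (nsq (Φ v)) := by
  have hb : Φ v1 ≠ 0 := by
    intro h0
    rw [h0] at hS
    simp [nsq] at hS
  obtain ⟨X, μ, hX0, hX⟩ := exists_dir (fderiv ℂ Φ v1) hb
  have hXpos := nsq_pos hX0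
  set S0 := nsq (Φ v1) with hS0
  -- the line
  set ℓ : ℂ → (Fin n → ℂ) := fun t => v1 + t • X with hℓ
  have hℓd : Differentiable ℂ ℓ := by
    rw [hℓ]
    fun_prop
  have hℓ0 : ℓ 0 = v1 := by
    simp [hℓ]
  have hℓder : HasDerivAt ℓ X 0 := by
    have := ((hasDerivAt_id (0 : ℂ)).smul_const X).const_add v1
    rw [one_smul] at this
    exact this
  -- the functions
  set g : Fin n → ℂ → ℂ := fun i t => Complex.exp (-(μ * t)) * Φ (ℓ t) i with hg
  have hgd : ∀ i, Differentiable ℂ (g i) := by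
    intro i
    have h1 : Differentiable ℂ (fun t => Φ (ℓ t) i) :=
      differentiable_pi.1 (hΦ.comp hℓd) i
    have h2 : Differentiable ℂ (fun t : ℂ => Complex.exp (-(μ * t))) := by fun_prop
    exact h2.mul h1
  have hg0 : ∀ i, g i 0 = Φ v1 i := by
    intro i
    simp [hg, hℓ0]
  have hgder : ∀ i, deriv (g i) 0 = 0 := by
    intro i
    have h1 : HasDerivAt (fun t => Φ (ℓ t)) (μ • Φ v1) 0 := by
      have h2 : HasFDerivAt Φ (fderiv ℂ Φ v1) (ℓ 0) := by
        rw [hℓ0]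
        exact (hΦ v1).hasFDerivAt
      have h3 := h2.comp_hasDerivAt (0 : ℂ) hℓder
      rw [hX] at h3
      exact h3
    have h4 : HasDerivAt (fun t => Φ (ℓ t) i) (μ * Φ v1 i) 0 := by
      have := (hasDerivAt_pi.1 h1) i
      exact this
    have h5 : HasDerivAt (fun t : ℂ => Complex.exp (-(μ * t))) (Complex.exp (-(μ * 0)) * (-(μ * 1))) 0 :=
      (((hasDerivAt_id (0 : ℂ)).const_mul μ).neg).cexp
    have h6 : HasDerivAt (g i) (Complex.exp (-(μ * 0)) * (-(μ * 1)) * Φ (ℓ 0) i +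
        Complex.exp (-(μ * 0)) * (μ * Φ v1 i)) 0 := h5.mul h4
    rw [h6.deriv, hℓ0]
    ring
  choose k hkd hk using fun i => fact2 (hgd i) (hgder i)
  set H : ℂ → ℂ := fun t => ∑ i, (starRingEnd ℂ) (Φ v1 i) * k i t with hH
  set K : ℂ → ℝ := fun t => ∑ i, ‖k i t‖ ^ 2 with hK
  have hHd : Differentiable ℂ H := by
    intro t
    apply DifferentiableAt.fun_sum
    intro i _
    exact ((hkd i) t).const_mul _
  have hKc : Continuous K := by
    apply continuous_finsetSum
    intro i _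
    exact ((hkd i).continuous.norm).pow 2
  have hK0 : ∀ t, 0 ≤ K t := fun t => by
    rw [hK]
    positivity
  obtain ⟨K0, hK0b⟩ := (isCompact_closedBall (0 : ℂ) 1).exists_bound_of_continuousOn hKc.continuousOn
  have hK0' : ∀ t : ℂ, ‖t‖ ≤ 1 → K t ≤ K0 := by
    intro t ht
    have := hK0b t (mem_closedBall_zero_iff.2 ht)
    rw [Real.norm_eq_abs, abs_of_nonneg (hK0 t)] at this
    exact this
  have hK00 : 0 ≤ K0 := (hK0 0).trans (hK0' 0 (by simp))
  -- the value of nsq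
  have hval : ∀ t, nsq (Φ (ℓ t)) = Real.exp (2 * (μ * t).re) *
      (S0 + 2 * (t ^ 2 * H t).re + ‖t‖ ^ 4 * K t) := by
    intro t
    have e1 : S0 + 2 * (t ^ 2 * H t).re + ‖t‖ ^ 4 * K t = ∑ i, ‖g i t‖ ^ 2 := by
      have e2 : ∀ i, ‖g i t‖ ^ 2 = ‖Φ v1 i‖ ^ 2 +
          2 * (t ^ 2 * ((starRingEnd ℂ) (Φ v1 i) * k i t)).re + ‖t‖ ^ 4 * ‖k i t‖ ^ 2 := by
        intro i
        rw [hk i t, hg0, norm_add_sq', norm_mul, norm_pow, mul_pow, ← pow_mul]
        congr 4
        ring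
      simp only [e2]
      rw [Finset.sum_add_distrib, Finset.sum_add_distrib, ← Finset.mul_sum, ← Finset.mul_sum,
        ← Complex.re_sum, ← Finset.mul_sum]
      rfl
    rw [e1, Finset.mul_sum]
    unfold nsq
    apply Finset.sum_congr rfl
    intro i _
    have e3 : ‖g i t‖ = Real.exp (-(μ * t).re) * ‖Φ (ℓ t) i‖ := by
      simp only [hg]
      rw [norm_mul, Complex.norm_exp, Complex.neg_re]
    rw [e3, mul_pow, ← mul_assoc, ← Real.exp_nat_mul, ← Real.exp_add]
    have : (2 * (μ * t).re + ((2 : ℕ) : ℝ) * -(μ * t).re) = 0 := by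
      push_cast
      ring
    rw [this, Real.exp_zero, one_mul]
  -- choose ε
  have hUn : ∀ᶠ t in 𝓝 (0 : ℂ), ℓ t ∈ U ∧ 0 < nsq (Φ (ℓ t)) := by
    have h1 : ∀ᶠ t in 𝓝 (0 : ℂ), ℓ t ∈ U := by
      apply hℓd.continuous.continuousAt.eventually
      rw [hℓ0]
      exact hU.mem_nhds hv1
    have h2 : ∀ᶠ t in 𝓝 (0 : ℂ), 0 < nsq (Φ (ℓ t)) := by
      have hc : Continuous fun t => nsq (Φ (ℓ t)) :=
        nsq_cont.comp (hΦ.continuous.comp hℓd.continuous)
      have h3 : (0 : ℝ) < nsq (Φ (ℓ 0)) := by rw [hℓ0]; exact hS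
      exact hc.continuousAt.eventually (lt_mem_nhds h3)
    exact h1.and h2
  obtain ⟨ε₁, hε₁, hball⟩ := Metric.eventually_nhds_iff_ball.1 hUn
  obtain ⟨ε, hε0, hε1, hεε, hεK⟩ : ∃ ε : ℝ, 0 < ε ∧ ε ≤ 1 ∧ ε < ε₁ ∧
      κ / 2 * (ε ^ 4 * K0 / S0) ≤ τ * nsq X * ε ^ 2 / 2 := by
    set δ := τ * nsq X * S0 / (κ * K0 + 1) with hδ
    have hκK : 0 < κ * K0 + 1 := by positivity
    have hδ0 : 0 < δ := by positivity
    refine ⟨min (min 1 (ε₁ / 2)) δ, by positivity, ?_, ?_, ?_⟩
    · exact (min_le_left _ _).trans (min_le_left _ _)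
    · refine lt_of_le_of_lt ((min_le_left _ _).trans (min_le_right _ _)) (by linarith)
    · set ε := min (min 1 (ε₁ / 2)) δ with hε
      have hε0 : 0 < ε := by positivity
      have h1 : ε ≤ 1 := (min_le_left _ _).trans (min_le_left _ _)
      have h2 : ε ≤ δ := min_le_right _ _
      have h3 : ε ^ 2 ≤ δ := by nlinarith
      have h4 : ε ^ 2 * (κ * K0 + 1) ≤ τ * nsq X * S0 := by
        rw [hδ, le_div_iff₀ hκK] at h3
        exact h3
      have h5 : κ * K0 * ε ^ 2 ≤ τ * nsq X * S0 := by nlinarith [sq_nonneg ε]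
      have h6 : κ / 2 * (ε ^ 4 * K0 / S0) = (κ * K0 * ε ^ 2) * (ε ^ 2 / (2 * S0)) := by
        field_simp
      have h7 : τ * nsq X * ε ^ 2 / 2 = (τ * nsq X * S0) * (ε ^ 2 / (2 * S0)) := by
        field_simp
      rw [h6, h7]
      exact mul_le_mul_of_nonneg_right h5 (by positivity)
  set c0 : ℂ := ∑ i, (starRingEnd ℂ) (v1 i) * X i with hc0
  -- the holomorphic minorant
  set F : ℂ → ℂ := fun t => h (ℓ t) + ((τ * nsq v1 : ℝ) : ℂ) + 2 * (τ : ℂ) * (t * c0) -
    (κ : ℂ) * (μ * t) - (((κ / S0 : ℝ)) : ℂ) * (t ^ 2 * H t) -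
    ((κ / 2 * Real.log S0 : ℝ) : ℂ) with hF
  have hFd : DifferentiableOn ℂ F (closedBall 0 ε) := by
    have h1 : DifferentiableOn ℂ (fun t => h (ℓ t)) (closedBall 0 ε) := by
      apply hh.comp hℓd.differentiableOn
      intro t ht
      exact (hball t (closedBall_subset_ball hεε ht)).1
    have h2 : Differentiable ℂ (fun t : ℂ => t ^ 2 * H t) := by
      intro t
      exact (differentiableAt_pow 2).mul (hHd t)
    have h3 : Differentiable ℂ (fun t : ℂ => 2 * (τ : ℂ) * (t * c0)) := by fun_prop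
    have h4 : Differentiable ℂ (fun t : ℂ => (κ : ℂ) * (μ * t)) := by fun_prop
    exact ((((h1.add_const _).add h3.differentiableOn).sub h4.differentiableOn).sub
      (h2.const_mul _).differentiableOn).sub_const _
  have hFre : ∀ t, (F t).re = (h (ℓ t)).re + τ * nsq v1 + 2 * τ * (t * c0).re -
      κ * (μ * t).re - κ / S0 * (t ^ 2 * H t).re - κ / 2 * Real.log S0 := by
    intro t
    simp only [hF]
    have e1 : ∀ z : ℂ, (2 * (τ : ℂ) * z).re = 2 * τ * z.re := by
      intro z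
      have : (2 * (τ : ℂ) * z) = ((2 * τ : ℝ) : ℂ) * z := by push_cast; ring
      rw [this, Complex.re_ofReal_mul]
    rw [Complex.sub_re, Complex.sub_re, Complex.sub_re, Complex.add_re, Complex.add_re,
      Complex.ofReal_re, Complex.ofReal_re, Complex.re_ofReal_mul, Complex.re_ofReal_mul, e1]
  -- the function w along the line
  set w : ℂ → ℝ := fun t => (h (ℓ t)).re + τ * nsq (ℓ t) - κ / 2 * Real.log (nsq (Φ (ℓ t))) with hw
  have hw0 : w 0 = (F 0).re := by
    rw [hFre]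
    have e0 : nsq (Φ (ℓ 0)) = S0 := by rw [hℓ0]
    simp only [hw]
    rw [e0, hℓ0]
    simp only [zero_mul, mul_zero, Complex.zero_re, zero_pow two_ne_zero, add_zero, sub_zero]
  obtain ⟨t, htε, ht⟩ := no_max (F := F) (w := w) (ε := ε) (c := τ * nsq X * ε ^ 2 / 2) hε0
    (by positivity) hFd hw0 (by
      intro t ht
      have htb : t ∈ ball (0 : ℂ) ε₁ := by
        rw [mem_ball_zero_iff, ht]
        exact hεε
      obtain ⟨htU, htpos⟩ := hball t htb
      have hy := hval t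
      set y := S0 + 2 * (t ^ 2 * H t).re + ‖t‖ ^ 4 * K t with hydef
      have hypos : 0 < y := by
        rw [hy] at htpos
        exact (mul_pos_iff_of_pos_left (Real.exp_pos _)).1 htpos
      have hlog : Real.log (nsq (Φ (ℓ t))) = 2 * (μ * t).re + Real.log y := by
        rw [hy, Real.log_mul (Real.exp_pos _).ne' hypos.ne', Real.log_exp]
      have hlogy : Real.log y ≤ Real.log S0 + (2 * (t ^ 2 * H t).re + ‖t‖ ^ 4 * K t) / S0 := by
        have h1 := Real.log_le_sub_one_of_pos (div_pos hypos hS)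
        rw [Real.log_div hypos.ne' hS.ne'] at h1
        have h2 : y / S0 - 1 = (2 * (t ^ 2 * H t).re + ‖t‖ ^ 4 * K t) / S0 := by
          rw [hydef]
          field_simp
          ring
        rw [h2] at h1
        linarith
      have hnsq : nsq (ℓ t) = nsq v1 + 2 * (t * c0).re + ε ^ 2 * nsq X := by
        simp only [hℓ]
        rw [nsq_add, nsq_smul, ht]
        congr 3
        rw [hc0, Finset.mul_sum]
        congr 1
        apply Finset.sum_congr rfl
        intro i _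
        rw [Pi.smul_apply, smul_eq_mul]
        ring
      have hKt : K t ≤ K0 := hK0' t (by rw [ht]; exact hε1)
      have hKK : ‖t‖ ^ 4 * K t / S0 ≤ ε ^ 4 * K0 / S0 := by
        rw [ht]
        apply div_le_div_of_nonneg_right _ hS.le
        exact mul_le_mul_of_nonneg_left hKt (by positivity)
      rw [hFre]
      simp only [hw]
      rw [hlog, hnsq]
      have e5 : (2 * (t ^ 2 * H t).re + ‖t‖ ^ 4 * K t) / S0 =
          2 * (t ^ 2 * H t).re / S0 + ‖t‖ ^ 4 * K t / S0 := add_div _ _ _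
      rw [e5] at hlogy
      have e6 : κ / 2 * Real.log y ≤ κ / 2 * (Real.log S0 + (2 * (t ^ 2 * H t).re / S0 +
          ε ^ 4 * K0 / S0)) :=
        mul_le_mul_of_nonneg_left (by linarith) (by positivity)
      have e7 : κ / S0 * (t ^ 2 * H t).re = κ / 2 * (2 * (t ^ 2 * H t).re / S0) := by
        field_simp
      rw [e7]
      have e8 : τ * (ε ^ 2 * nsq X) = τ * nsq X * ε ^ 2 / 2 + τ * nsq X * ε ^ 2 / 2 := by ring
      rw [mul_add, mul_add, e8]
      rw [mul_add, mul_add] at e6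
      rw [mul_add]
      linarith)
  refine ⟨ℓ t, ?_, ?_⟩
  · have htb : t ∈ ball (0 : ℂ) ε₁ := by
      rw [mem_ball_zero_iff, htε]
      exact hεε
    exact (hball t htb).1
  · simp only [hw, hℓ0] at ht
    exact ht

theorem tc : S_TC := by
  intro n Ω Φ h R R₀ r M κ hΩ hΦ hh hr hrR hR hM hMκ hD hDΩ hhM v₀ hv₀ hh0
  have hR₀ : 0 < R₀ := lt_of_lt_of_le hr hrR
  have hR0 : 0 < R := hR₀.trans hR
  have hlogR : 0 < Real.log (R / R₀) := Real.log_pos ((one_lt_div hR₀).2 hR)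
  have hκ : 0 < κ := by
    by_contra hκ
    push Not at hκ
    have : κ * Real.log (R / R₀) ≤ 0 := mul_nonpos_of_nonpos_of_nonneg hκ hlogR.le
    linarith
  by_cases hcase : nsq (Φ v₀) ≤ r ^ 2
  · refine ⟨v₀, hcase, ?_⟩
    rw [hh0]
    have : 0 ≤ Real.log (R₀ / r) := Real.log_nonneg ((one_le_div hr).2 hrR)
    have := mul_nonneg hκ.le this
    linarith
  push Not at hcase
  have hrR' : r < R₀ := by
    have : r ^ 2 < R₀ ^ 2 := lt_of_lt_of_le hcase hv₀
    exact lt_of_pow_lt_pow_left₀ 2 hR₀.le this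
  have hlogr : 0 < Real.log (R₀ / r) := Real.log_pos ((one_lt_div hr).2 hrR')
  set κ' := (κ + M / Real.log (R / R₀)) / 2 with hκ'
  have hMd : M / Real.log (R / R₀) < κ := by
    rw [div_lt_iff₀ hlogR]
    exact hMκ
  have hMd0 : 0 ≤ M / Real.log (R / R₀) := div_nonneg hM hlogR.le
  have hκ'κ : κ' < κ := by
    rw [hκ']
    linarith
  have hκ'0 : 0 < κ' := by
    rw [hκ']
    linarith
  have hMκ' : M < κ' * Real.log (R / R₀) := by
    rw [← div_lt_iff₀ hlogR, hκ']
    linarith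
  obtain ⟨Bd, hBd⟩ := hD.exists_bound_of_continuousOn (f := nsq) nsq_cont.continuousOn
  have hBd' : ∀ v, nsq (Φ v) ≤ R ^ 2 → nsq v ≤ Bd := by
    intro v hv
    have := hBd v hv
    rw [Real.norm_eq_abs, abs_of_nonneg (nsq_nonneg v)] at this
    exact this
  have hv₀R : nsq (Φ v₀) ≤ R ^ 2 := hv₀.trans (by
    apply pow_le_pow_left₀ hR₀.le hR.le)
  have hBd0 : 0 ≤ Bd := (nsq_nonneg v₀).trans (hBd' v₀ hv₀R)
  obtain ⟨τ, hτ, hτ1, hτ2⟩ : ∃ τ : ℝ, 0 < τ ∧ M + τ * Bd < κ' * Real.log (R / R₀) ∧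
      τ * Bd ≤ (κ - κ') * Real.log (R₀ / r) := by
    set a := κ' * Real.log (R / R₀) - M with ha
    set b := (κ - κ') * Real.log (R₀ / r) with hb
    have ha0 : 0 < a := by linarith
    have hb0 : 0 < b := mul_pos (by linarith) hlogr
    refine ⟨min a b / (Bd + 1), by positivity, ?_, ?_⟩
    · have : min a b / (Bd + 1) * Bd < a := by
        calc min a b / (Bd + 1) * Bd = min a b * (Bd / (Bd + 1)) := by ring
          _ < min a b * 1 := by
            apply mul_lt_mul_of_pos_left _ (by positivity)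
            rw [div_lt_one (by positivity)]
            linarith
          _ ≤ a := by
            rw [mul_one]
            exact min_le_left _ _
      linarith
    · calc min a b / (Bd + 1) * Bd = min a b * (Bd / (Bd + 1)) := by ring
        _ ≤ min a b * 1 := by
          apply mul_le_mul_of_nonneg_left _ (by positivity)
          rw [div_le_one (by positivity)]
          linarith
        _ ≤ b := by
          rw [mul_one]
          exact min_le_right _ _
  -- the annulus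
  have hNc : Continuous fun v => nsq (Φ v) := nsq_cont.comp hΦ.continuous
  set A : Set (Fin n → ℂ) := {v | nsq (Φ v) ≤ R ^ 2} ∩ {v | r ^ 2 ≤ nsq (Φ v)} with hA
  have hAc : IsCompact A := hD.inter_right (isClosed_le continuous_const hNc)
  set w : (Fin n → ℂ) → ℝ := fun v => (h v).re + τ * nsq v - κ' / 2 * Real.log (nsq (Φ v)) with hw
  have hpos : ∀ v ∈ A, 0 < nsq (Φ v) := fun v hv => lt_of_lt_of_le (by positivity) hv.2
  have hwc : ContinuousOn w A := by
    have h1 : ContinuousOn (fun v => (h v).re) A :=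
      Complex.continuous_re.comp_continuousOn (hh.continuousOn.mono fun v hv => hDΩ hv.1)
    have h2 : ContinuousOn (fun v => τ * nsq v) A := (nsq_cont.const_smul τ).continuousOn
    have h3 : ContinuousOn (fun v => Real.log (nsq (Φ v))) A :=
      hNc.continuousOn.log fun v hv => (hpos v hv).ne'
    exact (h1.add h2).sub (continuousOn_const.mul h3)
  have hv₀A : v₀ ∈ A := ⟨hv₀R, hcase.le⟩
  obtain ⟨v1, hv1A, hmax⟩ := hAc.exists_isMaxOn ⟨v₀, hv₀A⟩ hwc
  have hmax' : ∀ v ∈ A, w v ≤ w v1 := fun v hv => hmax hv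
  have hlogsq : ∀ x : ℝ, κ' / 2 * Real.log (x ^ 2) = κ' * Real.log x := by
    intro x
    rw [Real.log_pow]
    push_cast
    ring
  have hw₀ : -(κ' * Real.log R₀) ≤ w v₀ := by
    have h1 : Real.log (nsq (Φ v₀)) ≤ Real.log (R₀ ^ 2) :=
      Real.log_le_log (hpos v₀ hv₀A) hv₀
    have h2 := mul_le_mul_of_nonneg_left h1 (show 0 ≤ κ' / 2 by positivity)
    rw [hlogsq] at h2
    have h3 : 0 ≤ τ * nsq v₀ := mul_nonneg hτ.le (nsq_nonneg _)
    simp only [hw, hh0]
    linarith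
  have hlogdiv : Real.log (R / R₀) = Real.log R - Real.log R₀ := Real.log_div hR0.ne' hR₀.ne'
  have hlogdiv' : Real.log (R₀ / r) = Real.log R₀ - Real.log r := Real.log_div hR₀.ne' hr.ne'
  have hτB : ∀ v ∈ A, τ * nsq v ≤ τ * Bd := fun v hv =>
    mul_le_mul_of_nonneg_left (hBd' v hv.1) hτ.le
  rcases (show nsq (Φ v1) ≤ R ^ 2 from hv1A.1).lt_or_eq with hlt | heq
  · rcases (show r ^ 2 ≤ nsq (Φ v1) from hv1A.2).lt_or_eq with hlt2 | heq2
    · exfalso
      set U : Set (Fin n → ℂ) := {v | nsq (Φ v) < R ^ 2} ∩ {v | r ^ 2 < nsq (Φ v)} with hUdef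
      have hU : IsOpen U := (isOpen_lt hNc continuous_const).inter (isOpen_lt continuous_const hNc)
      have hUA : U ⊆ A := fun v hv => ⟨(show nsq (Φ v) < R ^ 2 from hv.1).le,
        (show r ^ 2 < nsq (Φ v) from hv.2).le⟩
      obtain ⟨v, hvU, hv⟩ := local_nomax (κ := κ') hU hΦ
        (hh.mono fun v hv => hDΩ (hUA hv).1) hτ hκ'0 (v1 := v1) ⟨hlt, hlt2⟩ (hpos v1 hv1A)
      exact absurd (hmax' v (hUA hvU)) (not_le.2 hv)
    · refine ⟨v1, heq2.symm.le, ?_⟩
      have h1 := hmax' v₀ hv₀A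
      have h2 := hw₀.trans h1
      simp only [hw] at h2
      rw [← heq2, hlogsq] at h2
      have h3 := hτB v1 hv1A
      rw [hlogdiv'] at hτ2 ⊢
      nlinarith
  · exfalso
    have h1 := hmax' v₀ hv₀A
    have h2 := hw₀.trans h1
    simp only [hw] at h2
    rw [heq, hlogsq] at h2
    have h3 := hτB v1 hv1A
    have h4 := hhM v1 hv1A.1
    rw [hlogdiv] at hτ1
    nlinarith

end Pool.Agent.W440.BM
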